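import Pool.Graph.R_pool_sql_team_seeded_1e53cb71.Helper17K9.EX.Spm
import Pool.Graph.R_pool_sql_team_seeded_1e53cb71.Helper17K9.EX.Tsy
import Pool.Graph.R_pool_sql_team_seeded_1e53cb71.Helper17K9.EX.Lam

set_option autoImplicit false

/-!
# From the monomials of degree 10 to all polynomials of degree at most 11

Abstract form (a function `M` on the exponents) of the library's `WP/Ten.lean` and `WP/Lam.lean`,
norm one.
-/

open MeasureTheory Metric Set

namespace Pool.Agent.H871.EU

open Pool.Agent.Q10.E8 Pool.Agent.Helper17K9.EX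
open Pool.Agent.Helper17K9.EX.Lam (I cont_prod up prod_up sum_up I_rel exists_odd)

open Pool.Agent.Helper17K9.EX.TenL in
theorem ten_abs (M : (Fin 8 → ℕ) → ℝ) (W : ℝ)
    (hp : ∀ (β : Fin 8 → ℕ) (π : Equiv.Perm (Fin 8)), M (fun i => β (π i)) = M β)
    (hf : ∀ (β : Fin 8 → ℕ) (i j : Fin 8), Even (β i) → Odd (β j) → M β = 0)
    (hn : ∀ β : Fin 8 → ℕ, M β = ∑ i, M (up β i))
    (r1 : 215040 * M ![10, 0, 0, 0, 0, 0, 0, 0] = 945 * W)
    (r2 : 215040 * M ![8, 2, 0, 0, 0, 0, 0, 0] = 105 * W)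
    (r3 : 215040 * M ![6, 4, 0, 0, 0, 0, 0, 0] = 45 * W)
    (r4 : 215040 * M ![6, 2, 2, 0, 0, 0, 0, 0] = 15 * W)
    (r5 : 215040 * M ![4, 4, 2, 0, 0, 0, 0, 0] = 9 * W)
    (r6 : 215040 * M ![4, 2, 2, 2, 0, 0, 0, 0] = 3 * W)
    (r7 : 215040 * M ![2, 2, 2, 2, 2, 0, 0, 0] = W)
    (r8 : M ![1, 1, 1, 1, 1, 1, 1, 1] = 0) :
    (∀ γ : Fin 8 → ℕ, ∑ i, γ i = 5 →
      215040 * M (fun i => 2 * γ i) = (∏ i, (Nat.doubleFactorial (2 * γ i - 1) : ℝ)) * W) ∧
    (∀ β : Fin 8 → ℕ, ∑ i, β i = 10 → (∃ i, Odd (β i)) → M β = 0) := by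
  refine ⟨fun γ hγ => ?_, fun β hβ hodd => ?_⟩
  · obtain ⟨π, hπ⟩ := sorted γ
    have hs : ∑ i, γ (π i) = 5 := by rw [Equiv.sum_comp π γ, hγ]
    have e1 : M (fun i => 2 * γ i) = M (fun i => 2 * γ (π i)) :=
      (hp (fun i => 2 * γ i) π).symm
    have e2 : (∏ i, (Nat.doubleFactorial (2 * γ i - 1) : ℝ)) =
        ∏ i, (Nat.doubleFactorial (2 * γ (π i) - 1) : ℝ) :=
      (Equiv.prod_comp π (fun i => (Nat.doubleFactorial (2 * γ i - 1) : ℝ))).symm
    rw [e1, e2]
    set δ : Fin 8 → ℕ := fun i => γ (π i) with hδ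
    show 215040 * M (fun i => 2 * δ i) =
      (∏ i, (Nat.doubleFactorial (2 * δ i - 1) : ℝ)) * W
    have two : ∀ a0 a1 a2 a3 a4 : ℕ, (fun i => 2 * (![a0, a1, a2, a3, a4, 0, 0, 0] : Fin 8 → ℕ) i) =
        ![2 * a0, 2 * a1, 2 * a2, 2 * a3, 2 * a4, 0, 0, 0] := by
      intro a0 a1 a2 a3 a4
      funext i
      fin_cases i <;> rfl
    have pr : ∀ a0 a1 a2 a3 a4 : ℕ,
        (∏ i, (Nat.doubleFactorial (2 * (![a0, a1, a2, a3, a4, 0, 0, 0] : Fin 8 → ℕ) i - 1) : ℝ)) =
        (Nat.doubleFactorial (2 * a0 - 1) : ℝ) * (Nat.doubleFactorial (2 * a1 - 1) : ℝ) *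
        (Nat.doubleFactorial (2 * a2 - 1) : ℝ) * (Nat.doubleFactorial (2 * a3 - 1) : ℝ) *
        (Nat.doubleFactorial (2 * a4 - 1) : ℝ) := by
      intro a0 a1 a2 a3 a4
      rw [Fin.prod_univ_eight]
      show (Nat.doubleFactorial (2 * a0 - 1) : ℝ) * (Nat.doubleFactorial (2 * a1 - 1) : ℝ) *
        (Nat.doubleFactorial (2 * a2 - 1) : ℝ) * (Nat.doubleFactorial (2 * a3 - 1) : ℝ) *
        (Nat.doubleFactorial (2 * a4 - 1) : ℝ) * (Nat.doubleFactorial 0 : ℝ) *
        (Nat.doubleFactorial 0 : ℝ) * (Nat.doubleFactorial 0 : ℝ) = _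
      simp [Nat.doubleFactorial]
    rcases seven hπ hs with h | h | h | h | h | h | h
    · have h' : δ = ![5, 0, 0, 0, 0, 0, 0, 0] := h
      rw [h', two, pr, r1]
      norm_num [Nat.doubleFactorial]
    · have h' : δ = ![4, 1, 0, 0, 0, 0, 0, 0] := h
      rw [h', two, pr, r2]
      norm_num [Nat.doubleFactorial]
    · have h' : δ = ![3, 2, 0, 0, 0, 0, 0, 0] := h
      rw [h', two, pr, r3]
      norm_num [Nat.doubleFactorial]
    · have h' : δ = ![3, 1, 1, 0, 0, 0, 0, 0] := h
      rw [h', two, pr, r4]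
      norm_num [Nat.doubleFactorial]
    · have h' : δ = ![2, 2, 1, 0, 0, 0, 0, 0] := h
      rw [h', two, pr, r5]
      norm_num [Nat.doubleFactorial]
    · have h' : δ = ![2, 1, 1, 1, 0, 0, 0, 0] := h
      rw [h', two, pr, r6]
      norm_num [Nat.doubleFactorial]
    · have h' : δ = ![1, 1, 1, 1, 1, 0, 0, 0] := h
      rw [h', two, pr, r7]
      norm_num [Nat.doubleFactorial]
  · by_cases hev : ∃ i, Even (β i)
    · obtain ⟨i, hi⟩ := hev
      obtain ⟨j, hj⟩ := hodd
      exact hf β i j hi hj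
    · push Not at hev
      have hod : ∀ i, Odd (β i) := fun i => Nat.not_even_iff_odd.1 (hev i)
      choose c hc using hod
      have hsc : ∑ i, c i = 1 := by
        have : ∑ i, β i = 2 * (∑ i, c i) + 8 := by
          rw [Finset.mul_sum]
          have e : ∀ i ∈ (Finset.univ : Finset (Fin 8)), β i = 2 * c i + 1 := fun i _ => hc i
          rw [Finset.sum_congr rfl e, Finset.sum_add_distrib]
          simp
        omega
      obtain ⟨i0, hi0⟩ : ∃ i0, 0 < c i0 := by
        by_contra h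
        push Not at h
        have : ∑ i, c i = 0 := Finset.sum_eq_zero fun i _ => by have := h i; omega
        omega
      have h1 : c i0 ≤ ∑ i, c i := Finset.single_le_sum (fun _ _ => Nat.zero_le _) (Finset.mem_univ _)
      have hz : ∀ l, l ≠ i0 → c l = 0 := by
        intro l hl
        have h2 : c i0 + c l ≤ ∑ i, c i := by
          rw [← Finset.sum_pair (f := c) (Ne.symm hl)]
          exact Finset.sum_le_sum_of_subset (Finset.subset_univ _)
        omega
      have hβ' : β = fun l => if l = i0 then 1 + 2 else 1 := by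
        funext l
        by_cases h : l = i0
        · subst h
          rw [if_pos rfl, hc l]
          omega
        · rw [if_neg h, hc l, hz l h, mul_zero, zero_add]
      have h0 : M (fun _ => 1) = 0 := by
        have e8 : (fun _ => 1 : Fin 8 → ℕ) = ![1, 1, 1, 1, 1, 1, 1, 1] := by
          funext i
          fin_cases i <;> rfl
        rw [e8]
        exact r8
      have hn1 := hn (fun _ => 1)
      rw [h0] at hn1
      have heq : ∀ i, M (up (fun _ => 1) i) = M (fun l => if l = i0 then 1 + 2 else 1) := by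
        intro i
        have h3 := hp (fun l => if l = i0 then 1 + 2 else 1) (Equiv.swap i i0)
        rw [← h3]
        congr 1
        funext l
        unfold up
        have h4 : (l = i) ↔ (Equiv.swap i i0 l = i0) := by
          constructor
          · rintro rfl; exact Equiv.swap_apply_left _ _
          · intro h
            have := congrArg (Equiv.swap i i0) h
            rwa [Equiv.swap_apply_self, Equiv.swap_apply_right] at this
        by_cases h : l = i
        · rw [if_pos h, if_pos (h4.1 h)]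
        · rw [if_neg h, if_neg (fun h5 => h (h4.2 h5))]
      rw [Finset.sum_congr rfl fun i _ => heq i, Finset.sum_const, Finset.card_univ,
        Fintype.card_fin] at hn1
      rw [hβ']
      have h5 : (8 : ℝ) * M (fun l => if l = i0 then 1 + 2 else 1) = 0 := by
        rw [nsmul_eq_mul] at hn1
        push_cast at hn1
        exact hn1.symm
      linarith

/-- All moments of degree at most 11. -/
theorem zero_abs (M : (Fin 8 → ℕ) → ℝ) (W : ℝ)
    (hn : ∀ β : Fin 8 → ℕ, M β = ∑ i, M (up β i))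
    (ho : ∀ β : Fin 8 → ℕ, Odd (∑ i, β i) → M β = 0)
    (h1 : ∀ γ : Fin 8 → ℕ, ∑ i, γ i = 5 →
      215040 * M (fun i => 2 * γ i) = (∏ i, (Nat.doubleFactorial (2 * γ i - 1) : ℝ)) * W)
    (h2 : ∀ β : Fin 8 → ℕ, ∑ i, β i = 10 → (∃ i, Odd (β i)) → M β = 0) :
    ∀ β : Fin 8 → ℕ, ∑ i, β i ≤ 11 → M β * sg.real Set.univ = W * I β := by
  have hS := spm
  have hodd : ∀ β : Fin 8 → ℕ, Odd (∑ i, β i) → M β * sg.real Set.univ = W * I β := by
    intro β hb
    rw [ho β hb, I, hS.2 β (exists_odd β hb)]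
    simp
  have hten : ∀ β : Fin 8 → ℕ, ∑ i, β i = 10 → M β * sg.real Set.univ = W * I β := by
    intro β hβ
    by_cases ho : ∃ i, Odd (β i)
    · rw [h2 β hβ ho, I, hS.2 β ho]
      simp
    · push Not at ho
      have he : ∀ i, ∃ g, β i = 2 * g := by
        intro i
        have := ho i
        rw [Nat.not_odd_iff_even] at this
        exact even_iff_two_dvd.mp this
      choose γ hγ using he
      have hβ' : β = fun i => 2 * γ i := funext hγ
      have hs : ∑ i, γ i = 5 := by
        rw [hβ'] at hβ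
        simp only [← Finset.mul_sum] at hβ
        omega
      have a1 := h1 γ hs
      have a2 := hS.1 γ hs
      rw [← hβ'] at a1
      have e1 : (∫ u : S7, ∏ i, ((u : E) i) ^ (2 * γ i) ∂sg) = I β := by
        unfold I
        rw [hβ']
      rw [e1] at a2
      have b1 : M β = (∏ i, (Nat.doubleFactorial (2 * γ i - 1) : ℝ)) * W / 215040 := by
        rw [← a1]; ring
      have b2 : I β = (∏ i, (Nat.doubleFactorial (2 * γ i - 1) : ℝ)) * sg.real Set.univ / 215040 := by
        rw [← a2]; ring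
      rw [b1, b2]
      ring
  have hev : ∀ j : ℕ, j ≤ 5 → ∀ β : Fin 8 → ℕ, ∑ i, β i = 10 - 2 * j →
      M β * sg.real Set.univ = W * I β := by
    intro j
    induction j with
    | zero => intro _ β hβ; exact hten β (by omega)
    | succ j ih =>
      intro hj β hβ
      rw [hn β, I_rel β, Finset.sum_mul, Finset.mul_sum]
      refine Finset.sum_congr rfl fun i _ => ih (by omega) _ ?_
      rw [sum_up, hβ]
      omega
  intro β hβ
  rcases Nat.even_or_odd (∑ i, β i) with he | ho
  · obtain ⟨r, hr⟩ := he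
    exact hev (5 - r) (by omega) β (by omega)
  · exact hodd β ho

end Pool.Agent.H871.EU
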