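import Pool.Agent.H871.EU.Defs
import Pool.Graph.R_pool_sql_team_seeded_64922ed1.X3.Tau
import Pool.Graph.R_pool_sql_team_seeded_843ab51a.H209.ES.Two

set_option autoImplicit false

/-!
# Ramanujan's function: multiplicativity, small values, two sets with `∑ τ(n) / n⁴ = 0`
-/

namespace Pool.Agent.H871.EU

open PowerSeries Pool.Agent.H397R2.PP Pool.Agent.V11330.ET

theorem tau_def (n : ℕ) : tau n = Pool.Agent.X3.Tau.tau n := rfl

theorem tau_one : tau 1 = 1 := Pool.Agent.X3.Tau.tau_one

theorem tau_two : tau 2 = -24 := Pool.Agent.X3.Tau.tau_two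

theorem hecke (p : ℕ) (hp : p.Prime) (n : ℕ) :
    tau (p * n) + (if p ∣ n then (p : ℤ) ^ 11 * tau (n / p) else 0) = tau p * tau n :=
  Pool.Agent.X3.Tau.hecke p hp n

/-- `τ` is multiplicative. -/
theorem tau_mul (m : ℕ) : ∀ n : ℕ, 0 < m → Nat.Coprime m n → tau (m * n) = tau m * tau n := by
  induction m using Nat.strong_induction_on with
  | _ m ih =>
    intro n hm hc
    rcases Nat.eq_or_lt_of_le (Nat.succ_le_of_lt hm) with h1 | h1
    · have : m = 1 := h1.symm
      subst this
      rw [one_mul, tau_one, one_mul]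
    · obtain ⟨p, hp, k, rfl⟩ := Nat.exists_prime_and_dvd (n := m) (by omega)
      have hk : 0 < k := Nat.pos_of_mul_pos_left hm
      have hlt : k < p * k := by nlinarith [hp.two_le]
      have hpn : ¬ p ∣ n := by
        intro h
        have := Nat.dvd_gcd (Dvd.intro k rfl : p ∣ p * k) h
        rw [hc] at this
        exact hp.one_lt.ne' (Nat.dvd_one.1 this)
      have hkn : Nat.Coprime k n := Nat.Coprime.coprime_dvd_left (Dvd.intro_left p rfl) hc
      have a1 := hecke p hp (k * n)
      have a2 := hecke p hp k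
      rw [ih k hlt n hk hkn] at a1
      by_cases hd : p ∣ k
      · obtain ⟨l, rfl⟩ := hd
        have hl : 0 < l := Nat.pos_of_mul_pos_left hk
        have e1 : p * l * n / p = l * n := by
          rw [mul_assoc, Nat.mul_div_cancel_left _ hp.pos]
        have e2 : p * l / p = l := Nat.mul_div_cancel_left _ hp.pos
        have hll : l < p * (p * l) := by nlinarith [hp.two_le]
        have hln : Nat.Coprime l n := Nat.Coprime.coprime_dvd_left (Dvd.intro_left p rfl) hkn
        rw [if_pos (Dvd.dvd.mul_right (Dvd.intro l rfl) n), e1, ih l hll n hl hln] at a1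
        rw [if_pos (Dvd.intro l rfl), e2] at a2
        have e3 : p * (p * l) * n = p * (p * l * n) := by ring
        rw [e3]
        linear_combination a1 - tau n * a2
      · have hd' : ¬ p ∣ k * n := by
          intro h
          rcases (hp.dvd_mul).1 h with h | h
          · exact hd h
          · exact hpn h
        rw [if_neg hd', add_zero] at a1
        rw [if_neg hd, add_zero] at a2
        rw [mul_assoc, a1, a2]
        ring

/-- the power series with the given first coefficients -/
noncomputable def pl : List ℤ → ℤ⟦X⟧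
  | [] => 0
  | a :: l => C a + X * pl l

theorem coeff_pl (l : List ℤ) : ∀ n : ℕ, coeff n (pl l) = l.getD n 0 := by
  induction l with
  | nil => intro n; simp [pl]
  | cons a l ih =>
    intro n
    cases n with
    | zero => simp [pl]
    | succ n =>
      rw [pl, map_add, coeff_succ_X_mul, ih, coeff_C, if_neg (Nat.succ_ne_zero n), zero_add]
      simp

/-- squares of truncated series -/
theorem sq_step (A P Q S : ℤ⟦X⟧) (h : ∃ R, A = P + X ^ 11 * R) (h2 : P ^ 2 = Q + X ^ 11 * S) :
    ∃ R, A ^ 2 = Q + X ^ 11 * R := by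
  obtain ⟨R, hR⟩ := h
  refine ⟨S + 2 * P * R + X ^ 11 * R ^ 2, ?_⟩
  rw [hR]
  linear_combination h2

/-- the cube of Euler's product up to degree 10 -/
theorem cube_eq : ∃ R : ℤ⟦X⟧, pentagonalSeries ℤ ^ 3 = pl [1, -3, 0, 5, 0, 0, -7, 0, 0, 0, 9] + X ^ 11 * R := by
  have h : (X : ℤ⟦X⟧) ^ 11 ∣ pentagonalSeries ℤ ^ 3 - pl [1, -3, 0, 5, 0, 0, -7, 0, 0, 0, 9] := by
    rw [X_pow_dvd_iff]
    intro j hj
    rw [map_sub, coeff_pl]
    have t0 := Pool.Agent.H209.ES.coeff_cube_tri 0
    have t1 := Pool.Agent.H209.ES.coeff_cube_tri 1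
    have t2 := Pool.Agent.H209.ES.coeff_cube_tri 2
    have t3 := Pool.Agent.H209.ES.coeff_cube_tri 3
    have t4 := Pool.Agent.H209.ES.coeff_cube_tri 4
    rw [show tri 0 = 0 by rfl] at t0
    rw [show tri 1 = 1 by rfl] at t1
    rw [show tri 2 = 3 by rfl] at t2
    rw [show tri 3 = 6 by rfl] at t3
    rw [show tri 4 = 10 by rfl] at t4
    have hm : ∀ k, 4 ≤ k → 10 ≤ tri k := by
      intro k hk
      induction k, hk using Nat.le_induction with
      | base => exact le_refl 10
      | succ k hk ih => show 10 ≤ tri k + (k + 1); omega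
    have z : ∀ j, j = 2 ∨ j = 4 ∨ j = 5 ∨ j = 7 ∨ j = 8 ∨ j = 9 → j ∉ Set.range tri := by
      rintro j hj ⟨k, hk⟩
      rcases Nat.lt_or_ge k 4 with h4 | h4
      · interval_cases k
        · rw [show tri 0 = 0 by rfl] at hk; omega
        · rw [show tri 1 = 1 by rfl] at hk; omega
        · rw [show tri 2 = 3 by rfl] at hk; omega
        · rw [show tri 3 = 6 by rfl] at hk; omega
      · have := hm k h4
        omega
    have n2 := Pool.Agent.H209.ES.coeff_cube_not (z 2 (by omega))
    have n4 := Pool.Agent.H209.ES.coeff_cube_not (z 4 (by omega))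
    have n5 := Pool.Agent.H209.ES.coeff_cube_not (z 5 (by omega))
    have n7 := Pool.Agent.H209.ES.coeff_cube_not (z 7 (by omega))
    have n8 := Pool.Agent.H209.ES.coeff_cube_not (z 8 (by omega))
    have n9 := Pool.Agent.H209.ES.coeff_cube_not (z 9 (by omega))
    interval_cases j
    · rw [t0]; norm_num
    · rw [t1]; norm_num
    · rw [n2]; norm_num
    · rw [t2]; norm_num
    · rw [n4]; norm_num
    · rw [n5]; norm_num
    · rw [t3]; norm_num
    · rw [n7]; norm_num
    · rw [n8]; norm_num
    · rw [n9]; norm_num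
    · rw [t4]; norm_num
  obtain ⟨R, hR⟩ := h
  exact ⟨R, by rw [← hR]; ring⟩

theorem pent_eq : ∃ R : ℤ⟦X⟧, pentagonalSeries ℤ ^ 24 = pl [1, -24, 252, -1472, 4830, -6048, -16744, 84480, -113643, -115920, 534612] + X ^ 11 * R := by
  have h1 := sq_step _ _ (pl [1, -6, 9, 10, -30, 0, 11, 42, 0, -70, 18]) (pl [-54, 49, 90, 0, 0, -126, 0, 0, 0, 81]) cube_eq (by
    simp only [pl, map_neg, map_ofNat, map_one, map_zero]
    ring)
  have h2 := sq_step _ _ (pl [1, -12, 54, -88, -99, 540, -418, -648, 594, 836, 1056]) (pl [-3996, -955, 5484, 684, -1540, -5484, 1512, 4900, -2520, 324]) h1 (by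
    simp only [pl, map_neg, map_ofNat, map_one, map_zero]
    ring)
  have h3 := sq_step _ _ (pl [1, -24, 252, -1472, 4830, -6048, -16744, 84480, -113643, -115920, 534612]) (pl [-362736, -675816, 831864, 617112, -328240, -1613436, -375408, 1953424, 1765632, 1115136]) h2 (by
    simp only [pl, map_neg, map_ofNat, map_one, map_zero]
    ring)
  obtain ⟨R, hR⟩ := h3
  refine ⟨R, ?_⟩
  rw [← hR]
  ring

theorem tau_small (k : ℕ) (hk : k < 11) : tau (k + 1) = ([1, -24, 252, -1472, 4830, -6048, -16744, 84480, -113643, -115920, 534612] : List ℤ).getD k 0 := by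
  rw [tau_def, Pool.Agent.X3.Tau.tau_eq, Dz, coeff_succ_X_mul]
  obtain ⟨R, hR⟩ := pent_eq
  rw [hR, map_add, coeff_pl, coeff_X_pow_mul', if_neg (by omega), add_zero]

theorem tau_three : tau 3 = 252 := tau_small 2 (by norm_num)

theorem tau_five : tau 5 = 4830 := tau_small 4 (by norm_num)

theorem tau_seven : tau 7 = -16744 := tau_small 6 (by norm_num)

theorem tau_eleven : tau 11 = 534612 := tau_small 10 (by norm_num)

theorem tau_4 : tau 4 = -1472 := by
  have h := hecke 2 (by norm_num) 2
  rw [if_pos (by norm_num), show 2 * 2 = 4 by norm_num, show 2 / 2 = 1 by norm_num] at h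
  rw [tau_two, tau_one] at h
  push_cast at h
  linarith

theorem tau_8 : tau 8 = 84480 := by
  have h := hecke 2 (by norm_num) 4
  rw [if_pos (by norm_num), show 2 * 4 = 8 by norm_num, show 4 / 2 = 2 by norm_num] at h
  rw [tau_two, tau_4] at h
  push_cast at h
  linarith

theorem tau_16 : tau 16 = 987136 := by
  have h := hecke 2 (by norm_num) 8
  rw [if_pos (by norm_num), show 2 * 8 = 16 by norm_num, show 8 / 2 = 4 by norm_num] at h
  rw [tau_two, tau_8, tau_4] at h
  push_cast at h
  linarith

theorem tau_32 : tau 32 = -196706304 := by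
  have h := hecke 2 (by norm_num) 16
  rw [if_pos (by norm_num), show 2 * 16 = 32 by norm_num, show 16 / 2 = 8 by norm_num] at h
  rw [tau_two, tau_16, tau_8] at h
  push_cast at h
  linarith

theorem tau_9 : tau 9 = -113643 := by
  have h := hecke 3 (by norm_num) 3
  rw [if_pos (by norm_num), show 3 * 3 = 9 by norm_num, show 3 / 3 = 1 by norm_num] at h
  rw [tau_three, tau_one] at h
  push_cast at h
  linarith

theorem tau_27 : tau 27 = -73279080 := by
  have h := hecke 3 (by norm_num) 9
  rw [if_pos (by norm_num), show 3 * 9 = 27 by norm_num, show 9 / 3 = 3 by norm_num] at h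
  rw [tau_three, tau_9] at h
  push_cast at h
  linarith

theorem tau_12 : tau 12 = -370944 := by
  rw [show 12 = 4 * 3 by norm_num, tau_mul 4 3 (by norm_num) (by norm_num), tau_4, tau_three]
  norm_num

theorem tau_24 : tau 24 = 21288960 := by
  rw [show 24 = 8 * 3 by norm_num, tau_mul 8 3 (by norm_num) (by norm_num), tau_8, tau_three]
  norm_num

theorem tau_40 : tau 40 = 408038400 := by
  rw [show 40 = 8 * 5 by norm_num, tau_mul 8 5 (by norm_num) (by norm_num), tau_8, tau_five]
  norm_num

theorem tau_44 : tau 44 = -786948864 := by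
  rw [show 44 = 4 * 11 by norm_num, tau_mul 4 11 (by norm_num) (by norm_num), tau_4, tau_eleven]
  norm_num

theorem tau_72 : tau 72 = -9600560640 := by
  rw [show 72 = 8 * 9 by norm_num, tau_mul 8 9 (by norm_num) (by norm_num), tau_8, tau_9]
  norm_num

theorem tau_80 : tau 80 = 4767866880 := by
  rw [show 80 = 16 * 5 by norm_num, tau_mul 16 5 (by norm_num) (by norm_num), tau_16, tau_five]
  norm_num

theorem tau_88 : tau 88 = 45164021760 := by
  rw [show 88 = 8 * 11 by norm_num, tau_mul 8 11 (by norm_num) (by norm_num), tau_8, tau_eleven]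
  norm_num

theorem tau_120 : tau 120 = 102825676800 := by
  rw [show 120 = 24 * 5 by norm_num, tau_mul 24 5 (by norm_num) (by norm_num), tau_24, tau_five]
  norm_num

theorem tau_135 : tau 135 = -353937956400 := by
  rw [show 135 = 27 * 5 by norm_num, tau_mul 27 5 (by norm_num) (by norm_num), tau_27, tau_five]
  norm_num

theorem tau_6 : tau 6 = -6048 := by
  rw [show 6 = 2 * 3 by norm_num, tau_mul 2 3 (by norm_num) (by norm_num), tau_two, tau_three]
  norm_num

theorem tau_30 : tau 30 = -29211840 := by
  rw [show 30 = 6 * 5 by norm_num, tau_mul 6 5 (by norm_num) (by norm_num), tau_6, tau_five]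
  norm_num

theorem tau_210 : tau 210 = 489123048960 := by
  rw [show 210 = 30 * 7 by norm_num, tau_mul 30 7 (by norm_num) (by norm_num), tau_30, tau_seven]
  norm_num

theorem tau_297 : tau 297 = -39175875516960 := by
  rw [show 297 = 27 * 11 by norm_num, tau_mul 27 11 (by norm_num) (by norm_num), tau_27, tau_eleven]
  norm_num

theorem tau_45 : tau 45 = -548895690 := by
  rw [show 45 = 9 * 5 by norm_num, tau_mul 9 5 (by norm_num) (by norm_num), tau_9, tau_five]
  norm_num

theorem tau_315 : tau 315 = 9190709433360 := by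
  rw [show 315 = 45 * 7 by norm_num, tau_mul 45 7 (by norm_num) (by norm_num), tau_45, tau_seven]
  norm_num

theorem tau_48 : tau 48 = 248758272 := by
  rw [show 48 = 16 * 3 by norm_num, tau_mul 16 3 (by norm_num) (by norm_num), tau_16, tau_three]
  norm_num

theorem tau_336 : tau 336 = -4165208506368 := by
  rw [show 336 = 48 * 7 by norm_num, tau_mul 48 7 (by norm_num) (by norm_num), tau_48, tau_seven]
  norm_num

theorem tau_60 : tau 60 = -1791659520 := by
  rw [show 60 = 12 * 5 by norm_num, tau_mul 12 5 (by norm_num) (by norm_num), tau_12, tau_five]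
  norm_num

theorem tau_420 : tau 420 = 29999547002880 := by
  rw [show 420 = 60 * 7 by norm_num, tau_mul 60 7 (by norm_num) (by norm_num), tau_60, tau_seven]
  norm_num

theorem tau_96 : tau 96 = -49569988608 := by
  rw [show 96 = 32 * 3 by norm_num, tau_mul 32 3 (by norm_num) (by norm_num), tau_32, tau_three]
  norm_num

theorem tau_672 : tau 672 = 829999889252352 := by
  rw [show 672 = 96 * 7 by norm_num, tau_mul 96 7 (by norm_num) (by norm_num), tau_96, tau_seven]
  norm_num

theorem tau_36 : tau 36 = 167282496 := by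
  rw [show 36 = 4 * 9 by norm_num, tau_mul 4 9 (by norm_num) (by norm_num), tau_4, tau_9]
  norm_num

theorem tau_180 : tau 180 = 807974455680 := by
  rw [show 180 = 36 * 5 by norm_num, tau_mul 36 5 (by norm_num) (by norm_num), tau_36, tau_five]
  norm_num

theorem tau_1260 : tau 1260 = -13528724285905920 := by
  rw [show 1260 = 180 * 7 by norm_num, tau_mul 180 7 (by norm_num) (by norm_num), tau_180, tau_seven]
  norm_num

/-- ten shells -/
def F₀ : Finset ℕ := {4, 40, 72, 80, 120, 210, 336, 420, 672, 1260}

/-- thirteen shells -/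
def F₁ : Finset ℕ := {1, 12, 24, 44, 72, 80, 88, 120, 135, 210, 297, 315, 672}

theorem sum_F₀ : ∑ n ∈ F₀, (tau n : ℝ) / (n : ℝ) ^ 4 = 0 := by
  unfold F₀
  rw [Finset.sum_insert (by decide), Finset.sum_insert (by decide), Finset.sum_insert (by decide), Finset.sum_insert (by decide), Finset.sum_insert (by decide), Finset.sum_insert (by decide), Finset.sum_insert (by decide), Finset.sum_insert (by decide), Finset.sum_insert (by decide), Finset.sum_singleton,
    tau_4, tau_40, tau_72, tau_80, tau_120, tau_210, tau_336, tau_420, tau_672, tau_1260]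
  norm_num

theorem sum_F₁ : ∑ n ∈ F₁, (tau n : ℝ) / (n : ℝ) ^ 4 = 0 := by
  unfold F₁
  rw [Finset.sum_insert (by decide), Finset.sum_insert (by decide), Finset.sum_insert (by decide), Finset.sum_insert (by decide), Finset.sum_insert (by decide), Finset.sum_insert (by decide), Finset.sum_insert (by decide), Finset.sum_insert (by decide), Finset.sum_insert (by decide), Finset.sum_insert (by decide), Finset.sum_insert (by decide), Finset.sum_insert (by decide), Finset.sum_singleton,
    tau_one, tau_12, tau_24, tau_44, tau_72, tau_80, tau_88, tau_120, tau_135, tau_210, tau_297, tau_315, tau_672]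
  norm_num

end Pool.Agent.H871.EU
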