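import Pool.Agent.H871.EU.Defs
import Pool.Agent.H871.EU.Tau

set_option autoImplicit false

/-!
# Products of a block with coprime numbers; disjointness
-/

namespace Pool.Agent.H871.EU

/-- all products of an element of `A` and an element of `G` -/
def blow (A G : Finset ℕ) : Finset ℕ := (A ×ˢ G).image (fun p => p.1 * p.2)

theorem mem_blow (A G : Finset ℕ) (n : ℕ) : n ∈ blow A G ↔ ∃ a ∈ A, ∃ g ∈ G, a * g = n := by
  unfold blow
  simp only [Finset.mem_image, Finset.mem_product, Prod.exists]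
  constructor
  · rintro ⟨a, g, ⟨ha, hg⟩, h⟩
    exact ⟨a, ha, g, hg, h⟩
  · rintro ⟨a, ha, g, hg, h⟩
    exact ⟨a, g, ⟨ha, hg⟩, h⟩

theorem inj_blow {A G : Finset ℕ} (hc : ∀ a ∈ A, ∀ g ∈ G, Nat.Coprime a g) (hA : ∀ a ∈ A, 0 < a)
    {a a' g g' : ℕ} (ha : a ∈ A) (ha' : a' ∈ A) (hg : g ∈ G) (hg' : g' ∈ G)
    (h : a * g = a' * g') : a = a' ∧ g = g' := by
  have h1 : a ∣ a' := (hc a ha g' hg').dvd_of_dvd_mul_right (h ▸ Dvd.intro g rfl)
  have h2 : a' ∣ a := (hc a' ha' g hg).dvd_of_dvd_mul_right (h.symm ▸ Dvd.intro g' rfl)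
  have h3 := Nat.dvd_antisymm h1 h2
  subst h3
  exact ⟨rfl, Nat.eq_of_mul_eq_mul_left (hA a ha) h⟩

theorem sum_blow (A G : Finset ℕ) (hA : ∀ a ∈ A, 0 < a)
    (hc : ∀ a ∈ A, ∀ g ∈ G, Nat.Coprime a g)
    (hs : ∑ g ∈ G, (tau g : ℝ) / (g : ℝ) ^ 4 = 0) :
    ∑ n ∈ blow A G, (tau n : ℝ) / (n : ℝ) ^ 4 = 0 := by
  unfold blow
  rw [Finset.sum_image]
  · rw [Finset.sum_product]
    refine Finset.sum_eq_zero fun a ha => ?_
    have h1 : ∀ g ∈ G, (tau (a * g) : ℝ) / ((a * g : ℕ) : ℝ) ^ 4 =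
        (tau a : ℝ) / (a : ℝ) ^ 4 * ((tau g : ℝ) / (g : ℝ) ^ 4) := by
      intro g hg
      rw [tau_mul a g (hA a ha) (hc a ha g hg)]
      push_cast
      rw [mul_pow, div_mul_div_comm]
    rw [Finset.sum_congr rfl h1, ← Finset.mul_sum, hs, mul_zero]
  · intro p hp q hq h
    rw [Finset.mem_coe, Finset.mem_product] at hp hq
    obtain ⟨h1, h2⟩ := inj_blow hc hA hp.1 hq.1 hp.2 hq.2 h
    exact Prod.ext h1 h2

theorem card_blow (A G : Finset ℕ) (hA : ∀ a ∈ A, 0 < a)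
    (hc : ∀ a ∈ A, ∀ g ∈ G, Nat.Coprime a g) : (blow A G).card = A.card * G.card := by
  unfold blow
  rw [Finset.card_image_of_injOn, Finset.card_product]
  intro p hp q hq h
  rw [Finset.mem_coe, Finset.mem_product] at hp hq
  obtain ⟨h1, h2⟩ := inj_blow hc hA hp.1 hq.1 hp.2 hq.2 h
  exact Prod.ext h1 h2

/-- the products of two different elements are not squares -/
def NS (A : Finset ℕ) : Prop := ∀ a ∈ A, ∀ b ∈ A, a ≠ b → ¬ IsSquare (a * b)

theorem sq_of_coprime {a b : ℕ} (h : Nat.Coprime a b) (hs : IsSquare (a * b)) : IsSquare a := by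
  obtain ⟨c, hc⟩ := hs
  obtain ⟨d, hd⟩ := exists_eq_pow_of_mul_eq_pow (α := ℕ) (a := a) (b := b) (c := c) (k := 2)
    (Nat.isUnit_iff.2 h) (by rw [hc, sq])
  exact ⟨d, by rw [hd, sq]⟩

theorem NS_blow (A G : Finset ℕ) (hc : ∀ a ∈ A, ∀ g ∈ G, Nat.Coprime a g)
    (hA : NS A) (hG : NS G) : NS (blow A G) := by
  intro n hn n' hn' hne hs
  obtain ⟨a, ha, g, hg, rfl⟩ := (mem_blow A G n).1 hn
  obtain ⟨a', ha', g', hg', rfl⟩ := (mem_blow A G n').1 hn'
  have hcc : Nat.Coprime (a * a') (g * g') := by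
    apply Nat.Coprime.mul_left <;> apply Nat.Coprime.mul_right
    · exact hc a ha g hg
    · exact hc a ha g' hg'
    · exact hc a' ha' g hg
    · exact hc a' ha' g' hg'
  have e : a * g * (a' * g') = (a * a') * (g * g') := by ring
  rw [e] at hs
  have h1 := sq_of_coprime hcc hs
  have h2 : IsSquare (g * g') := by
    rw [mul_comm] at hs
    exact sq_of_coprime hcc.symm hs
  by_cases h : a = a'
  · subst h
    refine hG g hg g' hg' ?_ h2
    rintro rfl
    exact hne rfl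
  · exact hA a ha a' ha' h h1

theorem disjoint_of_NS (F : Finset ℕ) (hF : ∀ n ∈ F, 0 < n) (h : NS F) : PairwiseDisjoint F := by
  intro n hn n' hn' hne v hv v' hv' he
  apply h n hn n' hn' hne
  have hn0 : (0 : ℝ) < n := by exact_mod_cast hF n hn
  have hn1 : (0 : ℝ) < n' := by exact_mod_cast hF n' hn'
  have hsum : ∑ i, v i ^ 2 = 8 * (n : ℤ) := by
    unfold shell at hv
    rw [Finset.mem_filter] at hv
    exact hv.2.2.2
  obtain ⟨i, hi⟩ : ∃ i, v i ≠ 0 := by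
    by_contra hc
    push Not at hc
    rw [Finset.sum_eq_zero (fun i _ => by rw [hc i]; rfl)] at hsum
    have := hF n hn
    omega
  have h1 : (v i : ℝ) / 2 / Real.sqrt (2 * (n : ℝ)) = (v' i : ℝ) / 2 / Real.sqrt (2 * (n' : ℝ)) :=
    congrFun he i
  have s1 : Real.sqrt (2 * (n : ℝ)) ^ 2 = 2 * n := Real.sq_sqrt (by positivity)
  have s2 : Real.sqrt (2 * (n' : ℝ)) ^ 2 = 2 * n' := Real.sq_sqrt (by positivity)
  have h2 : ((v i : ℝ) / 2 / Real.sqrt (2 * (n : ℝ))) ^ 2 =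
      ((v' i : ℝ) / 2 / Real.sqrt (2 * (n' : ℝ))) ^ 2 := by rw [h1]
  rw [div_pow, div_pow, div_pow, div_pow, s1, s2] at h2
  have h3 : (v i : ℝ) ^ 2 * n' = (v' i : ℝ) ^ 2 * n := by
    field_simp at h2
    linarith
  have h4 : v i ^ 2 * (n' : ℤ) = v' i ^ 2 * n := by exact_mod_cast h3
  have h5 : v i ^ 2 * ((n : ℤ) * n') = (v' i * n) ^ 2 := by
    calc v i ^ 2 * ((n : ℤ) * n') = (v i ^ 2 * (n' : ℤ)) * n := by ring
      _ = (v' i * n) ^ 2 := by rw [h4]; ring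
  have h6 : v i ∣ v' i * n := by
    rw [← Int.pow_dvd_pow_iff (n := 2) (by norm_num), ← h5]
    exact Dvd.intro _ rfl
  obtain ⟨q, hq⟩ := h6
  rw [hq, mul_pow] at h5
  have h7 : (n : ℤ) * n' = q ^ 2 := by
    have : v i ^ 2 ≠ 0 := pow_ne_zero 2 hi
    exact mul_left_cancel₀ this h5
  refine ⟨q.natAbs, ?_⟩
  have h8 : ((n * n' : ℕ) : ℤ) = ((q.natAbs * q.natAbs : ℕ) : ℤ) := by
    push_cast
    rw [h7, ← sq, sq_abs]
  exact_mod_cast h8

theorem NS_F₀ : NS F₀ := by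
  unfold NS F₀
  decide +kernel

theorem NS_F₁ : NS F₁ := by
  unfold NS F₁
  decide +kernel

theorem coprime_of_dvd_pow {a g P k : ℕ} (h : Nat.Coprime a P) (hg : g ∣ P ^ k) : Nat.Coprime a g :=
  Nat.Coprime.coprime_dvd_right hg (Nat.Coprime.pow_right k h)

theorem cop_F₀ (a : ℕ) (h : Nat.Coprime a 210) : ∀ g ∈ F₀, Nat.Coprime a g := by
  intro g hg
  refine coprime_of_dvd_pow (k := 5) h ?_
  revert g
  unfold F₀
  decide +kernel

theorem cop_F₁ (a : ℕ) (h : Nat.Coprime a 2310) : ∀ g ∈ F₁, Nat.Coprime a g := by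
  intro g hg
  refine coprime_of_dvd_pow (k := 5) h ?_
  revert g
  unfold F₁
  decide +kernel

/-- squarefree numbers whose product is a square are equal -/
theorem eq_of_squarefree {a b : ℕ} (ha : Squarefree a) (hb : Squarefree b) (h : IsSquare (a * b)) :
    a = b := by
  have ha0 : a ≠ 0 := ha.ne_zero
  have hb0 : b ≠ 0 := hb.ne_zero
  refine Nat.eq_of_factorization_eq ha0 hb0 fun p => ?_
  obtain ⟨c, hc⟩ := h
  have hc0 : c ≠ 0 := by
    rintro rfl
    have := Nat.mul_ne_zero ha0 hb0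
    omega
  have h1 := congrArg (fun n => n.factorization p) hc
  simp only [Nat.factorization_mul ha0 hb0, Nat.factorization_mul hc0 hc0, Finsupp.add_apply] at h1
  have h2 := ha.natFactorization_le_one p
  have h3 := hb.natFactorization_le_one p
  omega

end Pool.Agent.H871.EU
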