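import Mathlib

set_option autoImplicit false

/-!
# Unions of scaled shells of `E₈`
-/

open MeasureTheory

namespace Pool.Agent.H871.EU

/-- The vectors `v = 2 x`, where `x` runs over the vectors of the lattice `E₈` with `x ⬝ x = 2 m`. -/
noncomputable def shell (m : ℕ) : Finset (Fin 8 → ℤ) :=
  (Fintype.piFinset (fun _ : Fin 8 => Finset.Icc (-(8 * (m : ℤ))) (8 * (m : ℤ)))).filter
    (fun v : Fin 8 → ℤ => (∀ i j, v i % 2 = v j % 2) ∧ (∑ i, v i) % 4 = 0 ∧
      ∑ i, v i ^ 2 = 8 * (m : ℤ))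

/-- The scaled shells `(2n)^(-1/2) S_n`, `n ∈ F`, with the weight `w n` on each of the points of the
`n`-th one, form together a (weighted) spherical `t`-design: for every polynomial of degree at most
`t` the weighted mean over the points is the mean over the sphere. -/
def IsDesign (t : ℕ) (F : Finset ℕ) (w : ℕ → ℝ) : Prop :=
  ∀ p : MvPolynomial (Fin 8) ℝ, p.totalDegree ≤ t →
    (∑ n ∈ F, w n * ∑ v ∈ shell n,
        MvPolynomial.eval (fun i => (v i : ℝ) / 2 / Real.sqrt (2 * (n : ℝ))) p) *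
      ((volume : Measure (EuclideanSpace ℝ (Fin 8))).toSphere Set.univ).toReal =
    (∑ n ∈ F, w n * ((shell n).card : ℝ)) *
      ∫ u, MvPolynomial.eval (fun i => (u : EuclideanSpace ℝ (Fin 8)) i) p
        ∂((volume : Measure (EuclideanSpace ℝ (Fin 8))).toSphere)

/-- The scaled shells `(2n)^(-1/2) S_n`, `n ∈ F`, are pairwise disjoint. -/
def PairwiseDisjoint (F : Finset ℕ) : Prop :=
  ∀ n ∈ F, ∀ n' ∈ F, n ≠ n' → ∀ v ∈ shell n, ∀ v' ∈ shell n',
    (fun i => (v i : ℝ) / 2 / Real.sqrt (2 * (n : ℝ))) ≠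
      (fun i => (v' i : ℝ) / 2 / Real.sqrt (2 * (n' : ℝ)))

/-- Ramanujan's function: the coefficient of `q^n` in `q ∏_{i ≤ n} (1 - q^i)^24`. -/
noncomputable def tau (n : ℕ) : ℤ :=
  (Polynomial.X * ∏ i ∈ Finset.Icc 1 n, (1 - Polynomial.X ^ i) ^ 24 : Polynomial ℤ).coeff n

end Pool.Agent.H871.EU
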