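import Pool.Graph.R_pool_sql_team_seeded_1e53cb71.Helper17K9.WP.Lin
import Pool.Graph.R_pool_sql_team_seeded_1e53cb71.Helper17K9.WP.Tsy
import Pool.Graph.R_pool_sql_team_seeded_1e53cb71.Helper17K9.WP.Rfl
import Pool.Graph.R_pool_sql_team_seeded_1e53cb71.Helper17K9.WP.Exa
import Pool.Graph.R_pool_sql_team_seeded_1e53cb71.Helper17K9.WP.Exb
import Pool.Graph.R_pool_sql_team_seeded_1e53cb71.Helper17K9.WP.Exc
import Pool.Graph.R_pool_sql_team_seeded_1e53cb71.Helper17K9.WP.Exd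
import Pool.Graph.R_pool_sql_team_seeded_1e53cb71.Helper17K9.WP.Exq

set_option autoImplicit false

/-!
# Monomial sums of degree 10 of a weighted set which is invariant under the Weyl group of `E₈`

The library (`WP/Lin.lean`) treats the case in which the invariant of degree eight has the value of
the sphere; here the general case: all sums are known multiples of `N⁵ W` and of `N U`, where `U`
is the sum of `v₁ ⋯ v₈`.
-/

namespace Pool.Agent.H871.EU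

open Pool.Agent.Helper17K9.WP Pool.Agent.Helper17K9.WP.LinL

/-- the linear algebra, with the invariant of degree eight -/
theorem core2 {a W T2 T4 T22 T6 T42 T222 T8 T62 T44 T422 T2222 T10 T82 T64 T622 T442 T4222 T22222
    U : ℝ}
    (e0 : a * W = 8 * T2) (e1 : a * T2 = 1 * T4 + 7 * T22) (e2 : a * T4 = 1 * T6 + 7 * T42)
    (e3 : a * T22 = 2 * T42 + 6 * T222) (e4 : a * T6 = 1 * T8 + 7 * T62)
    (e5 : a * T42 = 1 * T62 + 1 * T44 + 6 * T422) (e6 : a * T222 = 3 * T422 + 5 * T2222)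
    (e7 : a * T8 = 1 * T10 + 7 * T82) (e8 : a * T62 = 1 * T82 + 1 * T64 + 6 * T622)
    (e9 : a * T44 = 2 * T64 + 6 * T442) (e10 : a * T422 = 1 * T622 + 2 * T442 + 5 * T4222)
    (e11 : a * T2222 = 4 * T4222 + 4 * T22222)
    (r4 : 256 * T4 = 16 * (4 * T4 + 36 * T22))
    (r6 : 4096 * T6 = 64 * (4 * T6 + 180 * T42 + 360 * T222))
    (r8 : 65536 * T8 = 256 * (4 * T8 + 336 * T62 + 420 * T44 + 5040 * T422 + 2520 * T2222))
    (r8' : 256 * (2 * T8 + 56 * T62 + 70 * T44) =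
      8 * T8 + 1568 * T62 + 1960 * T44 + 70560 * T422 + 176400 * T2222 + 40320 * U)
    (r10 : 1048576 * T10 = 1024 * (4 * T10 + 540 * T82 + 2520 * T64 + 15120 * T622 + 37800 * T442
      + 75600 * T4222))
    (r10' : 59050 * T10 + 295650 * T82 + 170100 * T64 =
      2050 * T10 + 139050 * T82 + 497700 * T64 + 1512000 * T622 + 2646000 * T442
        + 3024000 * T4222) :
    215040 * T10 = 945 * (a ^ 5 * W) - 1209600 * (a * U) ∧
    215040 * T82 = 105 * (a ^ 5 * W) + 80640 * (a * U) ∧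
    215040 * T64 = 45 * (a ^ 5 * W) + 541440 * (a * U) ∧
    215040 * T622 = 15 * (a ^ 5 * W) - 88320 * (a * U) ∧
    215040 * T442 = 9 * (a ^ 5 * W) - 42240 * (a * U) ∧
    215040 * T4222 = 3 * (a ^ 5 * W) + 3840 * (a * U) ∧
    215040 * T22222 = a ^ 5 * W + 19200 * (a * U) := by
  have k2 : T2 = 1 / 8 * (a * W) := by linarith
  rw [k2] at e1
  have k4 : T4 = 3 / 80 * (a ^ 2 * W) := by linarith
  have k22 : T22 = 1 / 80 * (a ^ 2 * W) := by linarith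
  rw [k4] at e2
  rw [k22] at e3
  clear e0 e1 r4 k2 k4 k22
  have k42 : T42 = 1 / 320 * (a ^ 3 * W) := by linarith
  have k6 : T6 = 1 / 64 * (a ^ 3 * W) := by linarith
  have k222 : T222 = 1 / 960 * (a ^ 3 * W) := by linarith
  rw [k6] at e4
  rw [k42] at e5
  rw [k222] at e6
  clear e2 e3 r6 k42 k6 k222
  have k8 : T8 = 1 / 128 * (a ^ 4 * W) - 3 * U := by linarith
  have k62 : T62 = 1 / 896 * (a ^ 4 * W) + 3 / 7 * U := by linarith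
  have k44 : T44 = 3 / 4480 * (a ^ 4 * W) + 27 / 7 * U := by linarith
  have k422 : T422 = 1 / 4480 * (a ^ 4 * W) - 5 / 7 * U := by linarith
  have k2222 : T2222 = 1 / 13440 * (a ^ 4 * W) + 3 / 7 * U := by linarith
  rw [k8] at e7
  rw [k62] at e8
  rw [k44] at e9
  rw [k422] at e10
  rw [k2222] at e11
  clear e4 e5 e6 r8 r8' k8 k62 k44 k422 k2222
  refine ⟨?_, ?_, ?_, ?_, ?_, ?_, ?_⟩ <;> linarith

/-- The sums of the monomials of degree 10. -/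
theorem lin2 (N : ℤ) (Y : Finset (Fin 8 → ℤ)) (w : (Fin 8 → ℤ) → ℝ) (hW : WInv N Y w)
    (hRef : Ref Y w) :
    215040 * TT Y w ![10, 0, 0, 0, 0, 0, 0, 0] =
      945 * ((N : ℝ) ^ 5 * WW Y w) - 1209600 * ((N : ℝ) * TT Y w ![1, 1, 1, 1, 1, 1, 1, 1]) ∧
    215040 * TT Y w ![8, 2, 0, 0, 0, 0, 0, 0] =
      105 * ((N : ℝ) ^ 5 * WW Y w) + 80640 * ((N : ℝ) * TT Y w ![1, 1, 1, 1, 1, 1, 1, 1]) ∧
    215040 * TT Y w ![6, 4, 0, 0, 0, 0, 0, 0] =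
      45 * ((N : ℝ) ^ 5 * WW Y w) + 541440 * ((N : ℝ) * TT Y w ![1, 1, 1, 1, 1, 1, 1, 1]) ∧
    215040 * TT Y w ![6, 2, 2, 0, 0, 0, 0, 0] =
      15 * ((N : ℝ) ^ 5 * WW Y w) - 88320 * ((N : ℝ) * TT Y w ![1, 1, 1, 1, 1, 1, 1, 1]) ∧
    215040 * TT Y w ![4, 4, 2, 0, 0, 0, 0, 0] =
      9 * ((N : ℝ) ^ 5 * WW Y w) - 42240 * ((N : ℝ) * TT Y w ![1, 1, 1, 1, 1, 1, 1, 1]) ∧
    215040 * TT Y w ![4, 2, 2, 2, 0, 0, 0, 0] =
      3 * ((N : ℝ) ^ 5 * WW Y w) + 3840 * ((N : ℝ) * TT Y w ![1, 1, 1, 1, 1, 1, 1, 1]) ∧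
    215040 * TT Y w ![2, 2, 2, 2, 2, 0, 0, 0] =
      (N : ℝ) ^ 5 * WW Y w + 19200 * ((N : ℝ) * TT Y w ![1, 1, 1, 1, 1, 1, 1, 1]) := by
  have h : H N Y w := tsy N Y w hW
  have hR := rfl_ N Y w hW hRef
  obtain ⟨a1, a2, a3, a4⟩ := exa tsy N Y w hW
  obtain ⟨b1, b2, b3⟩ := exb tsy N Y w hW
  obtain ⟨c1, c2, c3⟩ := exc tsy N Y w hW
  have d1 := exd tsy N Y w hW
  have q1 := exq tsy N Y w hW
  have r4 : G Y w 4 ![4, 0, 0, 0, 0, 0, 0, 0] = G Y w 4 ![2, 2, 2, 2, 0, 0, 0, 0] := (hR 2).1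
  have r6 : G Y w 6 ![4, 0, 0, 0, 0, 0, 0, 0] = G Y w 6 ![2, 2, 2, 2, 0, 0, 0, 0] := (hR 3).1
  have r8 : G Y w 8 ![4, 0, 0, 0, 0, 0, 0, 0] = G Y w 8 ![2, 2, 2, 2, 0, 0, 0, 0] := (hR 4).1
  have r8' : G Y w 8 ![2, 2, 0, 0, 0, 0, 0, 0] = G Y w 8 ![1, 1, 1, 1, 1, 1, 1, 1] := (hR 4).2.2
  have r10 : G Y w 10 ![4, 0, 0, 0, 0, 0, 0, 0] = G Y w 10 ![2, 2, 2, 2, 0, 0, 0, 0] := (hR 5).1
  have r10' : G Y w 10 ![3, 1, 0, 0, 0, 0, 0, 0] = G Y w 10 ![2, 2, 1, 1, 0, 0, 0, 0] := (hR 5).2.1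
  have h0 : TT Y w ![0, 0, 0, 0, 0, 0, 0, 0] = WW Y w := by
    unfold TT WW
    refine Finset.sum_congr rfl fun v _ => ?_
    have h1 : ∏ i, (v i : ℝ) ^ ((![0, 0, 0, 0, 0, 0, 0, 0] : Fin 8 → ℕ) i) = 1 := by
      apply Finset.prod_eq_one
      intro i _
      have h2 : (![0, 0, 0, 0, 0, 0, 0, 0] : Fin 8 → ℕ) i = 0 := by fin_cases i <;> rfl
      rw [h2, pow_zero]
    rw [h1, mul_one]
  have e0 := rel_0 h
  rw [h0] at e0
  exact core2 e0 (rel_2 h) (rel_4 h) (rel_2_2 h) (rel_6 h) (rel_4_2 h) (rel_2_2_2 h) (rel_8 h)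
    (rel_6_2 h) (rel_4_4 h) (rel_4_2_2 h) (rel_2_2_2_2 h) (a1.symm.trans (r4.trans a3))
    (a2.symm.trans (r6.trans a4)) (b1.symm.trans (r8.trans b3)) (b2.symm.trans (r8'.trans q1))
    (c1.symm.trans (r10.trans c2)) (c3.symm.trans (r10'.trans d1))

end Pool.Agent.H871.EU
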