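import Pool.Agent.H871.EU.Defs
import Pool.Agent.H871.EU.Lin
import Pool.Agent.H871.EU.Abs
import Pool.Graph.R_pool_sql_team_seeded_1e53cb71.Helper17K9.WP.Aut
import Pool.Graph.R_pool_sql_team_seeded_1e53cb71.Helper17K9.WP.Lam
import Pool.Graph.R_pool_sql_team_seeded_64922ed1.X3.Tau
import Pool.Graph.R_pool_sql_team_seeded_843ab51a.Results.MP_130199_nt.UnionsOfShells

set_option autoImplicit false

/-!
# A union of shells of `E₈` is an 11-design if and only if `∑ w(n) τ(n) / n⁴ = 0`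
-/

open MeasureTheory Metric Set

namespace Pool.Agent.H871.EU

open Pool.Agent.Q10.E8 (E S7 sg IsE8 InShell integrable_cont)
open Pool.Agent.Helper17K9.WP (TT WW WInv Ref tsy aut)
open Pool.Agent.Helper17K9.EX.Lam (I cont_prod up prod_up sum_up I_rel)

theorem shell_eq (m : ℕ) : shell m = Pool.Agent.Q10.E8.shell m := by
  ext v
  rw [Pool.Agent.Q10.E8.mem_shell]
  have h : v ∈ Pool.Agent.H209.ES.shell m ↔ v ∈ shell m := Iff.rfl
  rw [← h, Pool.Agent.H209.ES.mem_shell]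
  unfold InShell IsE8
  tauto

theorem tau_eq (n : ℕ) : (tau n) = Pool.Agent.H209.ES.tau n := by
  have h : tau n = Pool.Agent.X3.Tau.tau n := rfl
  rw [h, Pool.Agent.X3.Tau.tau_eq]
  rfl

/-- monomial sums over a shell -/
noncomputable def T (n : ℕ) (β : Fin 8 → ℕ) : ℝ := TT (shell n) (fun _ => 1) β

theorem inv (n : ℕ) : WInv (8 * (n : ℤ)) (shell n) (fun _ => 1) ∧ Ref (shell n) (fun _ => 1) := by
  have h := aut n (fun _ => 1)
  rw [shell_eq]
  exact h

theorem T_one (n : ℕ) (hn : 0 < n) : T n ![1, 1, 1, 1, 1, 1, 1, 1] = 128 * (tau n : ℝ) := by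
  unfold T TT
  have h1 := Pool.Agent.H209.ES.sum_shell n hn
  have h2 : ∑ v ∈ shell n, (1 : ℝ) * ∏ i, (v i : ℝ) ^ (![1, 1, 1, 1, 1, 1, 1, 1] : Fin 8 → ℕ) i =
      ((∑ v ∈ Pool.Agent.H209.ES.shell n, ∏ i, v i : ℤ) : ℝ) := by
    push_cast
    refine Finset.sum_congr rfl fun v _ => ?_
    rw [one_mul]
    refine Finset.prod_congr rfl fun i _ => ?_
    have h3 : (![1, 1, 1, 1, 1, 1, 1, 1] : Fin 8 → ℕ) i = 1 := by fin_cases i <;> rfl
    rw [h3, pow_one]
  rw [h2, h1, tau_eq]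
  push_cast
  ring

/-- the scaling factor -/
noncomputable def x (n : ℕ) : ℝ := (2 * Real.sqrt (2 * (n : ℝ)))⁻¹

theorem x_sq (n : ℕ) (hn : 0 < n) : x n ^ 2 * (8 * (n : ℝ)) = 1 := by
  unfold x
  have hn0 : (0 : ℝ) < n := by exact_mod_cast hn
  rw [inv_pow, mul_pow, Real.sq_sqrt (by positivity)]
  field_simp
  ring

/-- the moments of the union -/
noncomputable def M (F : Finset ℕ) (w : ℕ → ℝ) (β : Fin 8 → ℕ) : ℝ :=
  ∑ n ∈ F, w n * (x n ^ (∑ i, β i) * T n β)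

/-- the total weight -/
noncomputable def W (F : Finset ℕ) (w : ℕ → ℝ) : ℝ := ∑ n ∈ F, w n * ((shell n).card : ℝ)

theorem M_perm (F : Finset ℕ) (w : ℕ → ℝ) (β : Fin 8 → ℕ) (π : Equiv.Perm (Fin 8)) :
    M F w (fun i => β (π i)) = M F w β := by
  unfold M
  refine Finset.sum_congr rfl fun n _ => ?_
  have h1 : T n (fun i => β (π i)) = T n β := (tsy _ _ _ (inv n).1).1 β π
  have h2 : ∑ i, β (π i) = ∑ i, β i := Equiv.sum_comp π β
  rw [h1, h2]

theorem M_flip (F : Finset ℕ) (w : ℕ → ℝ) (β : Fin 8 → ℕ) (i j : Fin 8) (hi : Even (β i))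
    (hj : Odd (β j)) : M F w β = 0 := by
  unfold M
  refine Finset.sum_eq_zero fun n _ => ?_
  have h1 : T n β = 0 := (tsy _ _ _ (inv n).1).2.1 β i j hi hj
  rw [h1, mul_zero, mul_zero]

theorem M_norm (F : Finset ℕ) (w : ℕ → ℝ) (hF : ∀ n ∈ F, 0 < n) (β : Fin 8 → ℕ) :
    M F w β = ∑ i, M F w (up β i) := by
  unfold M
  rw [Finset.sum_comm]
  refine Finset.sum_congr rfl fun n hn => ?_
  have h1 : ((8 * (n : ℤ) : ℤ) : ℝ) * T n β = ∑ i, T n (up β i) := (tsy _ _ _ (inv n).1).2.2 β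
  push_cast at h1
  simp only [sum_up]
  rw [← Finset.mul_sum, ← Finset.mul_sum, ← h1, pow_add]
  have h2 := x_sq n (hF n hn)
  calc w n * (x n ^ (∑ i, β i) * T n β) = w n * (x n ^ (∑ i, β i) * T n β) * 1 := by ring
    _ = w n * (x n ^ (∑ i, β i) * T n β) * (x n ^ 2 * (8 * (n : ℝ))) := by rw [h2]
    _ = _ := by ring

theorem M_odd (F : Finset ℕ) (w : ℕ → ℝ) (β : Fin 8 → ℕ) (ho : Odd (∑ i, β i)) : M F w β = 0 := by
  unfold M
  refine Finset.sum_eq_zero fun n _ => ?_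
  have h1 : T n β = 0 := Pool.Agent.Helper17K9.WP.Lam.TT_odd _ _ _ (inv n).1 β ho
  rw [h1, mul_zero, mul_zero]

theorem M_one (F : Finset ℕ) (w : ℕ → ℝ) (hF : ∀ n ∈ F, 0 < n) :
    M F w ![1, 1, 1, 1, 1, 1, 1, 1] = (∑ n ∈ F, w n * (tau n : ℝ) / (n : ℝ) ^ 4) / 32 := by
  unfold M
  rw [Finset.sum_div]
  refine Finset.sum_congr rfl fun n hn => ?_
  have hn0 : (0 : ℝ) < n := by exact_mod_cast hF n hn
  rw [T_one n (hF n hn)]
  have h3 : ∑ i, (![1, 1, 1, 1, 1, 1, 1, 1] : Fin 8 → ℕ) i = 8 := by decide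
  rw [h3]
  have h2 := x_sq n (hF n hn)
  have h4 : x n ^ 2 = 1 / (8 * (n : ℝ)) := by
    field_simp
    linarith
  have h5 : x n ^ 8 = 1 / (4096 * (n : ℝ) ^ 4) := by
    rw [show (8 : ℕ) = 2 * 4 by norm_num, pow_mul, h4]
    field_simp
    norm_num
  rw [h5]
  field_simp
  ring

theorem M_type (F : Finset ℕ) (w : ℕ → ℝ) (hF : ∀ n ∈ F, 0 < n) (β : Fin 8 → ℕ) (c d : ℝ)
    (hs : ∑ i, β i = 10)
    (h : ∀ n ∈ F, 215040 * T n β = c * ((8 * (n : ℝ)) ^ 5 * WW (shell n) (fun _ => 1)) +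
      d * ((8 * (n : ℝ)) * T n ![1, 1, 1, 1, 1, 1, 1, 1])) :
    215040 * M F w β = c * W F w + d * M F w ![1, 1, 1, 1, 1, 1, 1, 1] := by
  unfold M W
  rw [Finset.mul_sum, Finset.mul_sum, Finset.mul_sum, ← Finset.sum_add_distrib]
  refine Finset.sum_congr rfl fun n hn => ?_
  have h1 := h n hn
  have h2 := x_sq n (hF n hn)
  have h3 : ∑ i, (![1, 1, 1, 1, 1, 1, 1, 1] : Fin 8 → ℕ) i = 8 := by decide
  have h4 : WW (shell n) (fun _ => 1) = ((shell n).card : ℝ) := by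
    unfold WW
    simp
  rw [h4] at h1
  rw [hs, h3]
  have h5 : x n ^ 10 * (8 * (n : ℝ)) ^ 5 = 1 := by
    calc x n ^ 10 * (8 * (n : ℝ)) ^ 5 = (x n ^ 2 * (8 * (n : ℝ))) ^ 5 := by ring
      _ = 1 := by rw [h2, one_pow]
  have h6 : x n ^ 10 * (8 * (n : ℝ)) = x n ^ 8 := by
    calc x n ^ 10 * (8 * (n : ℝ)) = x n ^ 8 * (x n ^ 2 * (8 * (n : ℝ))) := by ring
      _ = x n ^ 8 := by rw [h2, mul_one]
  calc 215040 * (w n * (x n ^ 10 * T n β)) = w n * (x n ^ 10 * (215040 * T n β)) := by ring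
    _ = c * (w n * ((x n ^ 10 * (8 * (n : ℝ)) ^ 5) * ((shell n).card : ℝ))) +
        d * (w n * ((x n ^ 10 * (8 * (n : ℝ))) * T n ![1, 1, 1, 1, 1, 1, 1, 1])) := by
      rw [h1]; ring
    _ = _ := by rw [h5, h6]; ring

theorem M_design (F : Finset ℕ) (w : ℕ → ℝ) (hF : ∀ n ∈ F, 0 < n)
    (h0 : ∑ n ∈ F, w n * (tau n : ℝ) / (n : ℝ) ^ 4 = 0) :
    ∀ β : Fin 8 → ℕ, ∑ i, β i ≤ 11 → M F w β * sg.real Set.univ = W F w * I β := by
  have r8 : M F w ![1, 1, 1, 1, 1, 1, 1, 1] = 0 := by rw [M_one F w hF, h0, zero_div]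
  have hl : ∀ n : ℕ, _ := fun n => lin2 (8 * (n : ℤ)) (shell n) (fun _ => 1) (inv n).1 (inv n).2
  have cast : ∀ n : ℕ, ((8 * (n : ℤ) : ℤ) : ℝ) = 8 * (n : ℝ) := fun n => by push_cast; ring
  have r1 : 215040 * M F w ![10, 0, 0, 0, 0, 0, 0, 0] = 945 * W F w := by
    have := M_type F w hF ![10, 0, 0, 0, 0, 0, 0, 0] 945 (-1209600) (by decide) (fun n _ => by
      have h := (hl n).1
      rw [cast n] at h
      show 215040 * TT (shell n) (fun _ => 1) _ = _ + _ * (_ * TT (shell n) (fun _ => 1) _)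
      rw [h]; ring)
    rw [this, r8]; ring
  have r2 : 215040 * M F w ![8, 2, 0, 0, 0, 0, 0, 0] = 105 * W F w := by
    have := M_type F w hF ![8, 2, 0, 0, 0, 0, 0, 0] 105 80640 (by decide) (fun n _ => by
      have h := (hl n).2.1
      rw [cast n] at h
      show 215040 * TT (shell n) (fun _ => 1) _ = _ + _ * (_ * TT (shell n) (fun _ => 1) _)
      rw [h])
    rw [this, r8]; ring
  have r3 : 215040 * M F w ![6, 4, 0, 0, 0, 0, 0, 0] = 45 * W F w := by
    have := M_type F w hF ![6, 4, 0, 0, 0, 0, 0, 0] 45 541440 (by decide) (fun n _ => by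
      have h := (hl n).2.2.1
      rw [cast n] at h
      show 215040 * TT (shell n) (fun _ => 1) _ = _ + _ * (_ * TT (shell n) (fun _ => 1) _)
      rw [h])
    rw [this, r8]; ring
  have r4 : 215040 * M F w ![6, 2, 2, 0, 0, 0, 0, 0] = 15 * W F w := by
    have := M_type F w hF ![6, 2, 2, 0, 0, 0, 0, 0] 15 (-88320) (by decide) (fun n _ => by
      have h := (hl n).2.2.2.1
      rw [cast n] at h
      show 215040 * TT (shell n) (fun _ => 1) _ = _ + _ * (_ * TT (shell n) (fun _ => 1) _)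
      rw [h]; ring)
    rw [this, r8]; ring
  have r5 : 215040 * M F w ![4, 4, 2, 0, 0, 0, 0, 0] = 9 * W F w := by
    have := M_type F w hF ![4, 4, 2, 0, 0, 0, 0, 0] 9 (-42240) (by decide) (fun n _ => by
      have h := (hl n).2.2.2.2.1
      rw [cast n] at h
      show 215040 * TT (shell n) (fun _ => 1) _ = _ + _ * (_ * TT (shell n) (fun _ => 1) _)
      rw [h]; ring)
    rw [this, r8]; ring
  have r6 : 215040 * M F w ![4, 2, 2, 2, 0, 0, 0, 0] = 3 * W F w := by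
    have := M_type F w hF ![4, 2, 2, 2, 0, 0, 0, 0] 3 3840 (by decide) (fun n _ => by
      have h := (hl n).2.2.2.2.2.1
      rw [cast n] at h
      show 215040 * TT (shell n) (fun _ => 1) _ = _ + _ * (_ * TT (shell n) (fun _ => 1) _)
      rw [h])
    rw [this, r8]; ring
  have r7 : 215040 * M F w ![2, 2, 2, 2, 2, 0, 0, 0] = W F w := by
    have := M_type F w hF ![2, 2, 2, 2, 2, 0, 0, 0] 1 19200 (by decide) (fun n _ => by
      have h := (hl n).2.2.2.2.2.2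
      rw [cast n] at h
      show 215040 * TT (shell n) (fun _ => 1) _ = _ + _ * (_ * TT (shell n) (fun _ => 1) _)
      rw [h]; ring)
    rw [this, r8]; ring
  obtain ⟨t1, t2⟩ := ten_abs (M F w) (W F w) (M_perm F w) (M_flip F w) (M_norm F w hF)
    r1 r2 r3 r4 r5 r6 r7 r8
  exact zero_abs (M F w) (W F w) (M_norm F w hF) (M_odd F w) t1 t2

/-- **Sufficiency.** -/
theorem design_of (F : Finset ℕ) (w : ℕ → ℝ) (hF : ∀ n ∈ F, 0 < n)
    (h0 : ∑ n ∈ F, w n * (tau n : ℝ) / (n : ℝ) ^ 4 = 0) : IsDesign 11 F w := by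
  intro p hp
  have hM := M_design F w hF h0
  have e1 : ∀ (n : ℕ) (v : Fin 8 → ℤ),
      MvPolynomial.eval (fun i => (v i : ℝ) / 2 / Real.sqrt (2 * (n : ℝ))) p
      = ∑ s ∈ p.support, p.coeff s * (x n ^ (∑ i, s i) * ∏ i, (v i : ℝ) ^ s i) := by
    intro n v
    rw [MvPolynomial.eval_eq']
    refine Finset.sum_congr rfl fun s _ => ?_
    congr 1
    rw [← Finset.prod_pow_eq_pow_sum, ← Finset.prod_mul_distrib]
    refine Finset.prod_congr rfl fun i _ => ?_
    rw [← mul_pow]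
    congr 1
    unfold x
    rw [div_div, div_eq_mul_inv, mul_comm]
  have e3 : ∫ u : S7, MvPolynomial.eval (fun i => (u : E) i) p ∂sg
      = ∑ s ∈ p.support, p.coeff s * I s := by
    have e2 : ∀ u : S7, MvPolynomial.eval (fun i => (u : E) i) p
        = ∑ s ∈ p.support, p.coeff s * ∏ i, ((u : E) i) ^ s i := by
      intro u
      rw [MvPolynomial.eval_eq']
    simp only [e2]
    rw [integral_finsetSum]
    · refine Finset.sum_congr rfl fun s _ => ?_
      rw [integral_const_mul]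
      rfl
    · intro s _
      exact Integrable.const_mul (integrable_cont _ (cont_prod s)) _
  have e4 : ∑ n ∈ F, w n * ∑ v ∈ shell n,
        MvPolynomial.eval (fun i => (v i : ℝ) / 2 / Real.sqrt (2 * (n : ℝ))) p
      = ∑ s ∈ p.support, p.coeff s * M F w s := by
    have e5 : ∀ n : ℕ, ∑ v ∈ shell n, ∑ s ∈ p.support,
        p.coeff s * (x n ^ (∑ i, s i) * ∏ i, (v i : ℝ) ^ s i)
        = ∑ s ∈ p.support, p.coeff s * (x n ^ (∑ i, s i) * T n s) := by
      intro n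
      rw [Finset.sum_comm]
      refine Finset.sum_congr rfl fun s _ => ?_
      unfold T TT
      rw [Finset.mul_sum, Finset.mul_sum]
      refine Finset.sum_congr rfl fun v _ => ?_
      ring
    simp only [e1, e5]
    unfold M
    simp only [Finset.mul_sum]
    rw [Finset.sum_comm]
    refine Finset.sum_congr rfl fun s _ => Finset.sum_congr rfl fun n _ => ?_
    ring
  show (∑ n ∈ F, w n * ∑ v ∈ shell n,
        MvPolynomial.eval (fun i => (v i : ℝ) / 2 / Real.sqrt (2 * (n : ℝ))) p) * sg.real Set.univ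
    = W F w * ∫ u : S7, MvPolynomial.eval (fun i => (u : E) i) p ∂sg
  rw [e3, e4, Finset.sum_mul, Finset.mul_sum]
  refine Finset.sum_congr rfl fun s hs => ?_
  have h3 : ∑ i, s i ≤ 11 := by
    have h4 := MvPolynomial.le_totalDegree hs
    rw [Finsupp.sum_fintype _ _ (fun _ => rfl)] at h4
    exact h4.trans hp
  have h5 := hM s h3
  rw [mul_assoc, h5]
  ring

end Pool.Agent.H871.EU
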